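import Pool.Agent.HRF.H5
import Pool.Agent.HRK.Final
import Pool.Agent.LMT.M9

set_option autoImplicit false

open Set Filter Topology Matrix
open scoped Manifold ContDiff

namespace Pool.Agent.Results.MP_ec2954_gt.MetricComplete

universe u

/-- the coordinate space `ℂ³`. -/
abbrev C3 : Type := Fin 3 → ℂ

/-! ### Holomorphic Riemannian metrics -/

/-- the partial derivative `∂f/∂zᵢ`. -/
noncomputable def pd (i : Fin 3) (f : C3 → ℂ) (z : C3) : ℂ := fderiv ℂ f z (Pi.single i 1)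

/-- The Christoffel symbol `Γˡᵢⱼ` of the metric `∑ gᵢⱼ dzᵢ dzⱼ`: the torsion-free connection
preserving the metric is `∇_{∂ᵢ} ∂ⱼ = ∑ₗ Γˡᵢⱼ ∂ₗ`. -/
noncomputable def Chr (g : C3 → Matrix (Fin 3) (Fin 3) ℂ) (l i j : Fin 3) (z : C3) : ℂ :=
  (1 / 2) * ∑ p, (g z)⁻¹ l p *
    (pd i (fun w => g w j p) z + pd j (fun w => g w i p) z - pd p (fun w => g w i j) z)

/-- The curvature tensor of the metric: `R(∂ᵢ, ∂ⱼ) ∂ₖ = ∑ₗ Rˡₖᵢⱼ ∂ₗ`. -/
noncomputable def Riem (g : C3 → Matrix (Fin 3) (Fin 3) ℂ) (l k i j : Fin 3) (z : C3) : ℂ :=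
  pd i (Chr g l j k) z - pd j (Chr g l i k) z +
    ∑ p, (Chr g l i p z * Chr g p j k z - Chr g l j p z * Chr g p i k z)

/-- the bilinear form `∑ Sᵢⱼ Xᵢ Yⱼ`. -/
noncomputable def bil (S : Matrix (Fin 3) (Fin 3) ℂ) (X Y : C3) : ℂ := X ⬝ᵥ (S *ᵥ Y)

/-- A holomorphic Riemannian metric on the complex 3-manifold `M`, given by its matrices of
coefficients `coef e` in the charts `e` of `M`: they are holomorphic, symmetric and nondegenerate, and
transform as a bilinear form on tangent vectors under changes of coordinates. -/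
structure HolMetric (M : Type u) [TopologicalSpace M] [ChartedSpace C3 M] where
  coef : OpenPartialHomeomorph M C3 → C3 → Matrix (Fin 3) (Fin 3) ℂ
  holomorphic : ∀ e ∈ atlas C3 M, ∀ z ∈ e.target, ∀ i j, AnalyticAt ℂ (fun w => coef e w i j) z
  symm : ∀ e ∈ atlas C3 M, ∀ z ∈ e.target, (coef e z)ᵀ = coef e z
  nondeg : ∀ e ∈ atlas C3 M, ∀ z ∈ e.target, (coef e z).det ≠ 0
  transform : ∀ e ∈ atlas C3 M, ∀ e' ∈ atlas C3 M, ∀ z ∈ (e.symm.trans e').source, ∀ X Y : C3,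
    bil (coef e z) X Y = bil (coef e' (e.symm.trans e' z))
      (fderiv ℂ (e.symm.trans e') z X) (fderiv ℂ (e.symm.trans e') z Y)

variable {M : Type u} [TopologicalSpace M] [ChartedSpace C3 M]

/-- `G` has constant sectional curvature `κ`: for all nondegenerate planes `⟨X, Y⟩`,
`g(R(X,Y)Y, X) = κ (g(X,X) g(Y,Y) - g(X,Y)²)`. -/
def HolMetric.ConstCurv (G : HolMetric M) (κ : ℂ) : Prop :=
  ∀ e ∈ atlas C3 M, ∀ z ∈ e.target, ∀ X Y : C3,
    bil (G.coef e z) X X * bil (G.coef e z) Y Y - bil (G.coef e z) X Y ^ 2 ≠ 0 →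
    bil (G.coef e z) (fun l => ∑ i, ∑ j, ∑ k, Riem (G.coef e) l k i j z * X i * Y j * Y k) X =
      κ * (bil (G.coef e z) X X * bil (G.coef e z) Y Y - bil (G.coef e z) X Y ^ 2)

/-! ### The models and the conclusion -/

/-- the complex sphere `{z ∈ ℂ⁴ | z₀² + z₁² + z₂² + z₃² = 1}`. -/
abbrev Sphere : Type := {z : Fin 4 → ℂ // z ⬝ᵥ z = 1}

/-- the isometries `z ↦ A z + b`, `Aᵀ A = 1`, of flat `ℂ³`. -/
def flatIsom : Set (C3 → C3) :=
  {φ | ∃ (A : Matrix (Fin 3) (Fin 3) ℂ) (b : Fin 3 → ℂ), Aᵀ * A = 1 ∧ ∀ z, φ z = A *ᵥ z + b}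

/-- the isometries `z ↦ A z`, `A ∈ O(4,ℂ)`, of the complex sphere. -/
def sphereIsom : Set (Sphere → Sphere) :=
  {φ | ∃ A : Matrix (Fin 4) (Fin 4) ℂ, Aᵀ * A = 1 ∧ ∀ z, (φ z : Fin 4 → ℂ) = A *ᵥ (z : Fin 4 → ℂ)}

/-- Let `X` be embedded by `ι` in `ℂᴺ`. The map `F : X → M` is a local isometry if `X` is given the
metric `c⁻¹ (dz₁² + ⋯ + dz_N²)` restricted to `X`: for all `x : X` and every chart `e` of `M` at `F x`,
there is a holomorphic local inverse `ψ` of `e ∘ F` with `ψ (e (F x)) = x`, and the pullback of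
`dz₁² + ⋯ + dz_N²` by `ψ` is `c` times the metric. -/
def IsLocalIsometry {X : Type} {N : ℕ} (ι : X → (Fin N → ℂ)) (c : ℂ) (G : HolMetric M)
    (F : X → M) : Prop :=
  ∀ x : X, ∀ e ∈ atlas C3 M, F x ∈ e.source →
    ∃ ψ : C3 → (Fin N → ℂ), ψ (e (F x)) = ι x ∧ ∀ᶠ y in 𝓝 (e (F x)),
      AnalyticAt ℂ ψ y ∧
      (∃ w : X, ι w = ψ y ∧ F w = e.symm y) ∧
      ∀ u v : C3, (fderiv ℂ ψ y u) ⬝ᵥ (fderiv ℂ ψ y v) = c * bil (G.coef e y) u v

/-- `(M, G)` is isometric to `Γ \ X`, where the metric of `X ⊆ ℂᴺ` is `c⁻¹ (dz₁² + ⋯ + dz_N²)` and `Γ`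
is a group of isometries of `X` (elements of the set `I`) acting freely and properly discontinuously. -/
def IsIsometricToQuotient {X : Type} [TopologicalSpace X] {N : ℕ} (ι : X → (Fin N → ℂ))
    (I : Set (X → X)) (c : ℂ) (G : HolMetric M) : Prop :=
  ∃ (Γ : Subgroup (Equiv.Perm X)) (Φ : MulAction.orbitRel.Quotient Γ X ≃ₜ M),
    (∀ g ∈ Γ, (g : X → X) ∈ I) ∧
    (∀ g ∈ Γ, ∀ x : X, g x = x → g = 1) ∧
    (∀ C : Set X, IsCompact C → {g : Equiv.Perm X | g ∈ Γ ∧ ∃ x ∈ C, g x ∈ C}.Finite) ∧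
    IsLocalIsometry ι c G (fun x => Φ (Quotient.mk'' x))

/-! ### The theorem -/

theorem HolMetric.metM [IsManifold 𝓘(ℂ, C3) ω M] (G : HolMetric M) :
    LMT.MetM (n := 3) M G.coef where
  met := fun e he =>
    { isOpen := e.open_target
      an := G.holomorphic e he
      symm := fun z hz i j => by
        have := congrFun (congrFun (G.symm e he z hz) j) i
        rwa [Matrix.transpose_apply] at this
      nd := G.nondeg e he }
  pb := fun e he e' he' z hz =>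
    { an := LMT.analyticAt_trans he he' hz
      met := G.transform e he e' he' z hz }

/-- **Every compact (connected) complex 3-manifold `M` with a holomorphic Riemannian metric of constant
sectional curvature `κ` is complete**: if `κ = 0`, it is isometric to a quotient of flat `ℂ³`, and if
`κ ≠ 0`, to a quotient of the complex sphere with the metric `κ⁻¹ (dz₀² + dz₁² + dz₂² + dz₃²)`, by a
group of isometries acting freely and properly discontinuously. -/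
theorem result (M : Type u) [TopologicalSpace M] [T2Space M] [CompactSpace M] [ConnectedSpace M]
    [ChartedSpace C3 M] [IsManifold 𝓘(ℂ, C3) ω M] (G : HolMetric M) (κ : ℂ)
    (hG : G.ConstCurv κ) :
    (κ = 0 → IsIsometricToQuotient (id : C3 → C3) flatIsom 1 G) ∧
    (κ ≠ 0 → IsIsometricToQuotient (Subtype.val : Sphere → (Fin 4 → ℂ)) sphereIsom κ G) := by
  have hM := G.metM
  have hcurv : ∀ e ∈ atlas C3 M, ∀ z ∈ e.target, LMT.CurvAt (G.coef e) κ z := by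
    intro e he z hz
    exact (hM.met e he).curvAt (by norm_num) hz (hG e he z hz)
  constructor
  · intro hκ
    subst hκ
    obtain ⟨c, hc1, hc2, hc3⟩ := LMT.exists_flat_atlas hM hcurv
    obtain ⟨Γ, Φ, h1, h2, h3, h4⟩ := @HRF.main_theorem M _ _ _ _ (LMT.mkCS c hc1) (by
      rintro e ⟨p, rfl⟩ e' ⟨q, rfl⟩
      have hfacts : ∀ z ∈ ((c p).symm.trans (c q)).source,
          AnalyticAt ℂ ((c p).symm.trans (c q)) z ∧ ∀ v w : Fin 3 → ℂ,
            (fderiv ℂ ((c p).symm.trans (c q)) z v) ⬝ᵥ (fderiv ℂ ((c p).symm.trans (c q)) z w) =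
              v ⬝ᵥ w := by
        intro z hz
        obtain ⟨A, b, hA, hAe⟩ := hc2 p q z hz
        exact LMT.affine_facts hA hAe
      exact ⟨fun z hz => (hfacts z hz).1, fun z hz => (hfacts z hz).2⟩)
    refine ⟨Γ, Φ, fun g hg => ?_, h2, h3, fun z e he hz => ?_⟩
    · obtain ⟨A, b, hA, hAe⟩ := h1 g hg
      exact ⟨A, b, hA, hAe⟩
    · have hF : ContinuousAt (fun w : C3 => Φ (Quotient.mk'' w)) z :=
        (Φ.continuous.comp continuous_quotient_mk').continuousAt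
      obtain ⟨g, ⟨A, b, hA, hg⟩, hgw⟩ := h4 z (c (Φ (Quotient.mk'' z))) ⟨_, rfl⟩ (hc1 _)
      obtain ⟨ψ, hψ0, hψ⟩ := hc3 (fun w : C3 => Φ (Quotient.mk'' w)) z hF _ (hc1 _) A b hA
        (hgw.mono fun w hw => by rw [hw, hg]) e he hz
      refine ⟨ψ, hψ0, hψ.mono fun y hy => ⟨analyticAt_pi_iff.mpr hy.1.an, ⟨ψ y, rfl, hy.2⟩,
        fun u v => ?_⟩⟩
      exact LMT.dot_of_met hy.1.an (fun i j => by rw [one_mul]; exact hy.1.met i j) u v
  · intro hκ
    obtain ⟨c, hc1, hc2, hc3⟩ := LMT.exists_quad_atlas hM hκ hcurv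
    obtain ⟨Γ, Φ, h1, h2, h3, h4⟩ := @HRK.quadric_complete M _ _ _ _ (LMT.mkCS c hc1) (by
      rintro e ⟨p, rfl⟩ e' ⟨q, rfl⟩ x hx
      exact hc2 p q x hx)
    refine ⟨Γ, Φ, fun g hg => ?_, h2, h3, fun z e he hz => ?_⟩
    · obtain ⟨A, hA, hAe⟩ := h1 g hg
      exact ⟨A, hA, hAe⟩
    · have hF : ContinuousAt (fun w : Sphere => Φ (Quotient.mk'' w)) z :=
        (Φ.continuous.comp continuous_quotient_mk').continuousAt
      obtain ⟨A, hA, hAe⟩ := h4 z (c (Φ (Quotient.mk'' z))) ⟨_, rfl⟩ (hc1 _)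
      obtain ⟨ψ, hψ0, hψ⟩ := hc3 (fun w : Sphere => Φ (Quotient.mk'' w)) z hF _ (hc1 _) A hA
        hAe e he hz
      exact ⟨ψ, hψ0, hψ.mono fun y hy => ⟨analyticAt_pi_iff.mpr hy.1.an,
        ⟨⟨ψ y, hy.1.quad⟩, rfl, hy.2 _ rfl⟩,
        fun u v => LMT.dot_of_met hy.1.an hy.1.met u v⟩⟩

end Pool.Agent.Results.MP_ec2954_gt.MetricComplete
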